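import Pool.Agent.H20.FT.Targets

/-!
# RU: the mean value over a group of roots of unity
-/

set_option autoImplicit false

open NumberField Height Finset Pool.Agent.H20.FT

namespace Pool.Agent.H1.FT

theorem Li_prod (h : T_LI) {F : Type} [Field F] [NumberField F] (n : ℕ) (a : ℕ → F)
    (ha : ∀ k < n, a k ≠ 0) : ∑ k ∈ range n, Li (a k) = Li (∏ k ∈ range n, a k) := by
  obtain ⟨-, h2, -, -, h5⟩ := h F
  induction n with
  | zero =>
    rw [range_zero, sum_empty, prod_empty]
    exact (h5 1 1 one_pos (one_pow 1)).symm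
  | succ n ih =>
    rw [sum_range_succ, prod_range_succ, ih fun k hk => ha k (Nat.lt_succ_of_lt hk), h2]
    · exact prod_ne_zero_iff.2 fun k hk => ha k (Nat.lt_succ_of_lt (mem_range.1 hk))
    · exact ha n (Nat.lt_succ_self n)

open Classical in
theorem pf_RU (h : T_LI) : T_RU := by
  intro F H _ _ _ _ χ
  haveI : Finite χ.range := inferInstance
  haveI : Fintype χ.range := Fintype.ofFinite _
  obtain ⟨g, hg⟩ := IsCyclic.exists_generator (α := χ.range)
  have hord : orderOf g = Nat.card χ.range := orderOf_eq_card_of_forall_mem_zpowers hg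
  obtain ⟨n, hn⟩ : ∃ n, Nat.card χ.range = n + 1 :=
    ⟨Nat.card χ.range - 1, (Nat.sub_add_cancel Nat.card_pos).symm⟩
  rw [hn] at hord ⊢
  have hordF : orderOf ((g : Fˣ) : F) = n + 1 := by
    rw [orderOf_units, Subgroup.orderOf_coe, hord]
  have hprim : IsPrimitiveRoot ((g : Fˣ) : F) (n + 1) := by
    rw [← hordF]
    exact IsPrimitiveRoot.orderOf _
  -- the function
  obtain ⟨f, hf⟩ : ∃ f : Fˣ → ℝ, f = fun (ζ : Fˣ) => if ζ ≠ 1 then Li (1 - (ζ : F)) else 0 := ⟨_, rfl⟩
  have h1 : ∑ σ ∈ univ.filter (fun σ => χ σ ≠ 1), Li (1 - (χ σ : F)) = ∑ σ : H, f (χ σ) := by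
    rw [sum_filter, hf]
  -- the image
  have himg : (univ : Finset H).image χ = (range (n + 1)).image fun j => ((g : Fˣ)) ^ j := by
    ext b
    rw [mem_image, mem_image]
    constructor
    · rintro ⟨σ, -, rfl⟩
      have h2 : (⟨χ σ, ⟨σ, rfl⟩⟩ : χ.range) ∈ Subgroup.zpowers g := hg _
      rw [mem_zpowers_iff_mem_range_orderOf] at h2
      obtain ⟨j, hj, hj2⟩ := mem_image.1 h2
      rw [hord] at hj
      refine ⟨j, hj, ?_⟩
      have := congrArg (Subtype.val : χ.range → Fˣ) hj2
      exact this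
    · rintro ⟨j, -, rfl⟩
      obtain ⟨σ, hσ⟩ := (g ^ j).2
      exact ⟨σ, mem_univ _, hσ⟩
  have hinj : Set.InjOn (fun j => ((g : Fˣ)) ^ j) (range (n + 1) : Set ℕ) := by
    intro i hi j hj hij
    have hi' := mem_range.1 (mem_coe.1 hi)
    have hj' := mem_range.1 (mem_coe.1 hj)
    refine hprim.pow_inj hi' hj' ?_
    have := congrArg (Units.val) hij
    simpa using this
  have hcardimg : ((univ : Finset H).image χ).card = n + 1 := by
    rw [himg, card_image_of_injOn hinj, card_range]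
  -- the fibres
  have hfib : ∀ b ∈ (univ : Finset H).image χ,
      ((univ : Finset H).filter fun σ => χ σ = b).card =
        ((univ : Finset H).filter fun σ => χ σ = 1).card := by
    intro b hb
    obtain ⟨σ, -, hσ⟩ := mem_image.1 hb
    exact MonoidHom.card_fiber_eq_of_mem_range χ ⟨σ, hσ⟩ ⟨1, map_one χ⟩
  obtain ⟨N, hN⟩ : ∃ N, N = ((univ : Finset H).filter fun σ => χ σ = 1).card := ⟨_, rfl⟩
  have hH : Fintype.card H = (n + 1) * N := by
    have h2 := card_eq_sum_card_image χ (univ : Finset H)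
    rw [card_univ] at h2
    rw [h2, sum_congr rfl hfib, sum_const, hcardimg, ← hN, smul_eq_mul]
  have h2 : ∑ σ : H, f (χ σ) = N * ∑ b ∈ (univ : Finset H).image χ, f b := by
    rw [sum_comp f χ, mul_sum]
    refine sum_congr rfl fun b hb => ?_
    rw [hfib b hb, ← hN, nsmul_eq_mul]
  have h3 : ∑ b ∈ (univ : Finset H).image χ, f b =
      ∑ k ∈ range n, Li (1 - ((g : Fˣ) : F) ^ (k + 1)) := by
    rw [himg, sum_image hinj, sum_range_succ']
    have h4 : f ((g : Fˣ) ^ 0) = 0 := by
      rw [hf, pow_zero]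
      simp
    rw [h4, add_zero]
    refine sum_congr rfl fun k hk => ?_
    rw [hf]
    have h5 : (g : Fˣ) ^ (k + 1) ≠ 1 := by
      intro h6
      have h7 : ((g : Fˣ) : F) ^ (k + 1) = 1 := by
        rw [← Units.val_pow_eq_pow_val, h6, Units.val_one]
      have h8 := hprim.dvd_of_pow_eq_one _ h7
      have h9 := Nat.le_of_dvd (Nat.succ_pos k) h8
      have := mem_range.1 hk
      omega
    beta_reduce
    rw [if_pos h5, Units.val_pow_eq_pow_val]
  have h4 : ∑ k ∈ range n, Li (1 - ((g : Fˣ) : F) ^ (k + 1)) =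
      Module.finrank ℚ F * Real.log ((n + 1 : ℕ) : ℝ) := by
    rw [Li_prod h n (fun k => 1 - ((g : Fˣ) : F) ^ (k + 1)), hprim.prod_one_sub_pow_eq_order]
    · have := (h F).2.2.2.1 (n + 1)
      push_cast at this ⊢
      exact this
    · intro k hk h5
      have h7 : ((g : Fˣ) : F) ^ (k + 1) = 1 := (sub_eq_zero.1 h5).symm
      have h8 := hprim.dvd_of_pow_eq_one _ h7
      have h9 := Nat.le_of_dvd (Nat.succ_pos k) h8
      omega
  rw [h1, h2, h3, h4, hH]
  have h5 : ((n + 1 : ℕ) : ℝ) ≠ 0 := by positivity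
  push_cast at h5 ⊢
  field_simp

end Pool.Agent.H1.FT
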